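import Pool.Agent.H.MP_bbd370_an.B

namespace Pool.Agent.Results.MP_bbd370_an.No

open Filter Topology Set Real MeasureTheory

noncomputable abbrev mu : Measure ℝ :=
  (volume.restrict (Ioi 0)).withDensity fun x => ENNReal.ofReal x

noncomputable abbrev X1 : Type := Lp ℝ 1 mu

def IsData (r a : ℝ → ℝ) (b : ℝ → ℝ → ℝ) : Prop :=
  (∀ x > 0, 0 < r x) ∧ LocallyIntegrableOn (fun x => 1 / r x) (Ioi 0) ∧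
    ∫⁻ x in Ioo 0 1, ENNReal.ofReal (1 / r x) = ⊤ ∧ ∫⁻ x in Ioi 1, ENNReal.ofReal (1 / r x) = ⊤ ∧
    Measurable a ∧ (∀ x > 0, 0 ≤ a x) ∧ Measurable (Function.uncurry b) ∧
    (∀ x y, 0 < x → x < y → 0 ≤ b x y) ∧
    ∀ y > 0, ∫⁻ x in Ioo 0 y, ENNReal.ofReal (x * b x y) ≤ ENNReal.ofReal y

def IsFlow (r : ℝ → ℝ) (Φ : ℝ → ℝ → ℝ) : Prop :=
  ∀ y > 0, ∀ t ≥ 0, Φ y t ∈ Ioc 0 y ∧ ∫ τ in Φ y t..y, 1 / r τ = t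

def Transport (r a : ℝ → ℝ) (Φ : ℝ → ℝ → ℝ) (t : ℝ) (f h : ℝ → ℝ) : Prop :=
  ∀ᵐ y ∂mu, h y = exp (-∫ p in Φ y t..y, a p / r p) * f (Φ y t) * deriv (fun y => Φ y t) y

def Frag (a : ℝ → ℝ) (b : ℝ → ℝ → ℝ) (f h : ℝ → ℝ) : Prop :=
  ∀ᵐ x ∂mu, IntegrableOn (fun y => a y * b x y * f y) (Ioi x) ∧
    h x = ∫ y in Ioi x, a y * b x y * f y

variable {E : Type} [NormedAddCommGroup E] [NormedSpace ℝ E]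

def C0 (V : ℝ → E →L[ℝ] E) : Prop :=
  (∀ f, V 0 f = f) ∧ (∀ s ≥ 0, ∀ t ≥ 0, ∀ f, V (s + t) f = V s (V t f)) ∧
    ∀ f, ContinuousOn (fun t => V t f) (Ici 0)

def Gen (V : ℝ → E →L[ℝ] E) (f g : E) : Prop :=
  Tendsto (fun t : ℝ => t⁻¹ • (V t f - f)) (𝓝[>] 0) (𝓝 g)

def Perturb (U V : ℝ → E →L[ℝ] E) (B : E →L[ℝ] E) : Prop :=
  ∀ f g, Gen V f g ↔ ∃ h, Gen U f h ∧ g = h + B f

noncomputable def growth (V : ℝ → E →L[ℝ] E) : EReal :=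
  sInf ((↑) '' {w : ℝ | ∃ M, ∀ t ≥ 0, ‖V t‖ ≤ M * exp (w * t)})

noncomputable def essGrowth (V : ℝ → E →L[ℝ] E) : EReal :=
  sInf ((↑) '' {w : ℝ | ∃ M, ∀ t ≥ 0, ∃ K : E →L[ℝ] E, IsCompactOperator K ∧
    ‖V t - K‖ ≤ M * exp (w * t)})

def Positive (V : ℝ → X1 →L[ℝ] X1) : Prop := ∀ t ≥ 0, ∀ f, 0 ≤ f → 0 ≤ V t f

def IsTransport (r a : ℝ → ℝ) (Φ : ℝ → ℝ → ℝ) (U : ℝ → X1 →L[ℝ] X1) : Prop :=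
  ∀ t ≥ 0, ∀ f : X1, Transport r a Φ t f (U t f)

def IsFrag (a : ℝ → ℝ) (b : ℝ → ℝ → ℝ) (B : X1 →L[ℝ] X1) : Prop := ∀ f : X1, Frag a b f (B f)

theorem result : ∃ (r a : ℝ → ℝ) (b Φ : ℝ → ℝ → ℝ) (U V : ℝ → X1 →L[ℝ] X1) (B : X1 →L[ℝ] X1),
    IsData r a b ∧ (∀ x, a x ≤ 2) ∧ IsFlow r Φ ∧ C0 U ∧ IsTransport r a Φ U ∧ IsFrag a b B ∧
      C0 V ∧ Positive V ∧ Perturb U V B ∧ essGrowth V < growth V :=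
  Pool.Agent.H.MP_bbd370_an.main

end Pool.Agent.Results.MP_bbd370_an.No
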